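import Mathlib
import Pool.Agent.TH163.NilAll

set_option autoImplicit false

namespace Pool.Agent.Results.MP_734462_al.AllFields

/-- **There is no universal nilalgebra of countable dimension over any field.**  Let `F` be any field and `A` an
associative nil `F`-algebra of at most countable dimension (`(fun x => a * x)^[n] a` is the power `a ^ (n + 1)`).
Then there is a nil `F`-algebra `B` of at most countable dimension that is not a homomorphic image of `A`. -/
theorem result (F : Type) [Field F] (A : Type) [NonUnitalRing A] [Module F A]
    [IsScalarTower F A A] [SMulCommClass F A A]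
    (hnil : ∀ a : A, ∃ n : ℕ, (fun x : A => a * x)^[n] a = 0)
    (hdim : Module.rank F A ≤ Cardinal.aleph0) :
    ∃ (B : Type) (_ : NonUnitalRing B) (_ : Module F B) (_ : IsScalarTower F B B)
      (_ : SMulCommClass F B B),
      (∀ b : B, ∃ n : ℕ, (fun x : B => b * x)^[n] b = 0) ∧
      Module.rank F B ≤ Cardinal.aleph0 ∧
      ¬ ∃ f : A →ₙₐ[F] B, Function.Surjective f :=
  Pool.Agent.TH163.NilAll.all_fields F A hnil hdim

end Pool.Agent.Results.MP_734462_al.AllFields
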